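import Pool.Agent.helper57.MS.Spec3
import Pool.Agent.Results.MP_b48e27_co.OrderThreeAllFields

/-!
# Row ms:TRI (MP_b48e27_co): order three
-/

set_option autoImplicit false

open Finset

namespace Pool.Agent.helper57.MS

open Pool.Agent.RRank Pool.Agent.helper26.IM

theorem TRI : TRI_stmt := by
  intro 𝓚 R hR l
  obtain ⟨G, hG⟩ := Pool.Agent.Results.MP_b48e27_co.OrderThreeAllFields.result
  refine ⟨G l, ?_⟩
  intro K iK _ Q _ T hT
  exact hG R hR K Q T l hT

end Pool.Agent.helper57.MS
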